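import Pool.Agent.W959.RC.PicBas

set_option autoImplicit false

namespace Pool.Agent.W959.RC

open Matrix Pool.Agent.W661.RC
open scoped ComplexOrder

lemma hs_neg {d : ℕ} (x : Mt d) : hs (-x) = hs x := by
  unfold hs
  simp

lemma en_gfg {d k : ℕ} (u : Fin k → Mt d) (f g : Mt d) (hf : fᴴ = f) (hg : gᴴ = g)
    (h1 : (1 - g * g).PosSemidef) :
    en u (g * f * g) ≤ 3 * (∑ s, hs ((u s * g - g * u s) * f) + en u f +
      ∑ s, hs (((u s)ᴴ * g - g * (u s)ᴴ) * f)) := by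
  unfold en
  rw [← Finset.sum_add_distrib, ← Finset.sum_add_distrib, Finset.mul_sum]
  refine Finset.sum_le_sum fun s _ => ?_
  have e : u s * (g * f * g) - g * f * g * u s =
      (u s * g - g * u s) * f * g + g * (u s * f - f * u s) * g +
        g * (f * (u s * g - g * u s)) := by noncomm_ring
  rw [e]
  refine (hs_add3 _ _ _).trans ?_
  have a1 := hs_mul_right ((u s * g - g * u s) * f) g hg h1
  have a2 := (hs_mul_right (g * (u s * f - f * u s)) g hg h1).trans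
    (hs_mul_left (u s * f - f * u s) g hg h1)
  have a3 := hs_mul_left (f * (u s * g - g * u s)) g hg h1
  have a4 : hs (f * (u s * g - g * u s)) = hs (((u s)ᴴ * g - g * (u s)ᴴ) * f) := by
    rw [← hs_ct, conjTranspose_mul, conjTranspose_sub, conjTranspose_mul, conjTranspose_mul, hf,
      hg, ← hs_neg]
    congr 1
    noncomm_ring
  linarith

lemma num1 {a1 ρ τ : ℝ} (hρ0 : 0 ≤ ρ) (hτ0 : 0 < τ) (hτ1 : τ ≤ 1) (hρτ : ρ < (1 - τ) / 16)
    (ha : a1 = τ / 16) : (√a1 + ρ) ^ 2 ≤ 1 / 16 * (1 - ρ ^ 2) := by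
  have hsa : √a1 ≤ (1 + τ) / 8 := by
    rw [Real.sqrt_le_left (by positivity), ha]
    nlinarith [sq_nonneg (1 - τ)]
  have h1 : √a1 + ρ ≤ (3 + τ) / 16 := by linarith
  have h2 : (√a1 + ρ) ^ 2 ≤ ((3 + τ) / 16) ^ 2 :=
    pow_le_pow_left₀ (add_nonneg (Real.sqrt_nonneg _) hρ0) h1 2
  have h3 : ρ ^ 2 ≤ ((1 - τ) / 16) ^ 2 := pow_le_pow_left₀ hρ0 hρτ.le 2
  have h4 : 0 ≤ (1 - τ) * (111 + 17 * τ) := mul_nonneg (by linarith) (by linarith)
  nlinarith

lemma num2 {a b H G ρ e3 J : ℝ} (hρ0 : 0 ≤ ρ) (hρ : ρ ≤ 1 / 16) (he3 : 0 < e3) (ha : 0 < a)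
    (hb : 0 < b) (hba : b ≤ a) (hH : H ≤ 1 / 16 * a) (hG : G ≤ H - 1 / 8 * (a - b))
    (hcase : 16 * ρ * a < a - b)
    (hJ : J ≤ (1 + ρ ^ 2) * b + (G + 2 * ρ * (1 / 4 * b) + ρ ^ 2 * b))
    (hm : a + H ≤ (1 + e3) * J) : a - b ≤ (48 * ρ + 6 * e3) * a := by
  have hρb : 0 ≤ ρ * b := mul_nonneg hρ0 hb.le
  have h1 : ρ ^ 2 * b ≤ 1 / 16 * (ρ * b) := by
    have : ρ * (ρ * b) ≤ 1 / 16 * (ρ * b) := mul_le_mul_of_nonneg_right hρ hρb
    calc ρ ^ 2 * b = ρ * (ρ * b) := by ring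
      _ ≤ _ := this
  have h2 : ρ * b ≤ ρ * a := mul_le_mul_of_nonneg_left hba hρ0
  have hkey : J ≤ a + H - (a - b) := by
    have e : (1 + ρ ^ 2) * b + (G + 2 * ρ * (1 / 4 * b) + ρ ^ 2 * b) =
      b + G + 1 / 2 * (ρ * b) + 2 * (ρ ^ 2 * b) := by ring
    rw [e] at hJ
    have e2 : 16 * ρ * a = 16 * (ρ * a) := by ring
    rw [e2] at hcase
    linarith
  have h3 : a - b ≤ e3 * J := by
    have e : (1 + e3) * J = J + e3 * J := by ring
    rw [e] at hm
    linarith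
  have h4 : e3 * J ≤ e3 * (2 * a) := mul_le_mul_of_nonneg_left (by linarith) he3.le
  have h5 : 0 ≤ ρ * a := mul_nonneg hρ0 ha.le
  have h6 : 0 ≤ e3 * a := mul_nonneg he3.le ha.le
  have e : (48 * ρ + 6 * e3) * a = 48 * (ρ * a) + 6 * (e3 * a) := by ring
  rw [e]
  linarith

set_option maxHeartbeats 1000000 in
theorem main (hL : LevP) (hC : CutP) (hI : IclP) : Pic1P := by
  intro d k C η δ S lam e2 e3 δ1 Q f hη hC1 hlam hQ he2 he3 he3' hδ1 h64 hρ hf hmin hA hB hD1 hD2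
  have hl0 : 0 ≤ lam := by linarith
  set g := gg lam Q with hg
  have gH : gᴴ = g := g_herm hl0 hQ
  have gP : g.PosSemidef := g_psd hl0 hQ
  have hP : (1 - g).PosSemidef := h_psd hl0 hQ
  have ggP : (1 - g * g).PosSemidef := gg_psd hl0 hQ
  have fP := pr_psd hf.pr
  have f1 := pr_one_sub hf.pr
  set y : Mt d := g * f * g with hy
  have yP : y.PosSemidef := by
    have := fP.mul_mul_conjTranspose_same g
    rwa [gH] at this
  have y1 : Le y 1 := by
    have h1 := f1.mul_mul_conjTranspose_same g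
    rw [gH] at h1
    have h2 := ggP.add h1
    have e : 1 - g * g + g * (1 - f) * g = 1 - y := by rw [hy]; noncomm_ring
    rw [e] at h2
    exact h2
  have hsy : hs y ≤ tr f := by
    rw [← pr_hs hf.pr]
    exact (hs_mul_right (g * f) g gH ggP).trans (hs_mul_left f g gH ggP)
  set W : ℝ := 2 * e2 + 32 * √(k * η) with hW
  have hW0 : 0 ≤ W := by rw [hW]; positivity
  have hfz := hf.nz
  have eny : en S.u y ≤ 3 * W * tr f := by
    have h1 := en_gfg S.u f g hf.pr.1 gH ggP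
    have h2 := hf.inv
    have h3 : en S.u y ≤ 3 * (e2 * tr f + 32 * √(k * η) * tr f + e2 * tr f) := by
      refine h1.trans ?_
      linarith
    rw [hW]
    linarith
  have eny0 : 0 ≤ en S.u y := Finset.sum_nonneg fun _ _ => hs_nonneg _
  obtain ⟨e, heP, hcomm, hle, hle2, hen, -, -⟩ := hL d k S.u y (1 / 2) (3 / 4) S.hu yP y1
    (by norm_num) (by norm_num) le_rfl
  have c1 : (((1 / 2 : ℝ) : ℝ) : ℂ) = (1 / 2 : ℂ) := by push_cast; norm_num
  have c2 : (((3 / 4 : ℝ) : ℝ) : ℂ) = (3 / 4 : ℂ) := by push_cast; norm_num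
  obtain ⟨hba, hG, P, hPp, hPf, hPt, hPle⟩ := hC d f g e hf.pr gP hP heP hcomm
    (by rw [← c1]; exact hle) (by rw [← c2]; exact hle2)
  refine ⟨P, hPp, hPf, hPle, ?_⟩
  rw [hPt]
  have hov : tr ((1 - g) * f) ≤ 1 / 16 * tr f := hf.ov
  have hG0 : 0 ≤ tr ((1 - g) * e) := tr_mul_nonneg hP (pr_psd heP)
  set ρ := rho k C η e2 with hρd
  have hρ0 : 0 ≤ ρ := Real.sqrt_nonneg _
  have hb2 : tr f / 2 ≤ tr e := by linarith
  have hbpos : 0 < tr e := by linarith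
  have hJf : JJ lam Q f = tr f + tr ((1 - g) * f) := rfl
  by_cases hcase : tr f - tr e ≤ 16 * ρ * tr f
  · have h1 : 0 ≤ ρ * tr f := mul_nonneg hρ0 hfz.le
    have h2 : 0 ≤ e3 * tr f := mul_nonneg he3.le hfz.le
    nlinarith
  push Not at hcase
  set e1 : ℝ := 32 * √(3 * k * W) with he1
  have he10 : 0 ≤ e1 := by rw [he1]; positivity
  have hρ2 : 16 * (C * e1 + η) = ρ ^ 2 := by
    rw [hρd]
    unfold rho
    rw [Real.sq_sqrt]
    have : 0 ≤ C := by linarith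
    positivity
  set a1 : ℝ := tr e / (16 * tr f) with ha1
  have ha10 : 0 ≤ a1 := by rw [ha1]; positivity
  have hene : en S.u e ≤ e1 * tr e := by
    have h1 : √(hs y * en S.u y) ≤ tr f * √(3 * W) := by
      have h2 : hs y * en S.u y ≤ tr f ^ 2 * (3 * W) := by
        have h3 := mul_le_mul hsy eny eny0 hfz.le
        nlinarith
      calc √(hs y * en S.u y) ≤ √(tr f ^ 2 * (3 * W)) := Real.sqrt_le_sqrt h2
        _ = tr f * √(3 * W) := by
          rw [Real.sqrt_mul (sq_nonneg _), Real.sqrt_sq hfz.le]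
    have h2 : √(3 * (k : ℝ) * W) = √k * √(3 * W) := by
      rw [← Real.sqrt_mul (Nat.cast_nonneg k)]
      congr 1
      ring
    have h3 : 2 * √(k : ℝ) / (1 / 2 * (3 / 4 - 1 / 2)) = 16 * √k := by
      ring
    rw [h3] at hen
    have h4 : 0 ≤ 16 * √(k : ℝ) := by positivity
    have h5 := mul_le_mul_of_nonneg_left h1 h4
    have h6 : 0 ≤ √(k : ℝ) * √(3 * W) := by positivity
    rw [he1, h2]
    calc en S.u e ≤ 16 * √(k : ℝ) * (tr f * √(3 * W)) := hen.trans h5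
      _ = 16 * (√(k : ℝ) * √(3 * W)) * tr f := by ring
      _ ≤ 16 * (√(k : ℝ) * √(3 * W)) * (2 * tr e) :=
          mul_le_mul_of_nonneg_left (by linarith) (by positivity)
      _ = 32 * (√(k : ℝ) * √(3 * W)) * tr e := by ring
  have hGa : tr ((1 - g) * e) ≤ a1 * tr e := by
    rw [ha1, div_mul_eq_mul_div, le_div_iff₀ (by positivity)]
    have h1 : tr ((1 - g) * e) ≤ (2 * tr e - tr f) / 16 := by linarith
    have h2 := mul_le_mul_of_nonneg_right h1 (by positivity : 0 ≤ 16 * tr f)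
    nlinarith [sq_nonneg (tr f - tr e)]
  set τ : ℝ := tr e / tr f with hτ
  have hτe : τ * tr f = tr e := by rw [hτ]; field_simp
  have hτ0 : 0 < τ := div_pos hbpos hfz
  have hτ1 : τ ≤ 1 := by rw [hτ, div_le_one hfz]; exact hba
  have hρτ : ρ < (1 - τ) / 16 := by
    have h1 : 16 * ρ * tr f < (1 - τ) * tr f := by
      rw [sub_mul, one_mul, hτe]
      exact hcase
    have := lt_of_mul_lt_mul_right h1 hfz.le
    linarith
  have ha1τ : a1 = τ / 16 := by rw [ha1, hτ]; field_simp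
  have hcond : (√a1 + ρ) ^ 2 ≤ 1 / 16 * (1 - ρ ^ 2) := num1 hρ0 hτ0 hτ1 hρτ ha1τ
  have hDe : 2 * tr (S.D * e) ≤ δ * tr e := by
    have h1 := tr_mul_mono S.hD hle
    rw [mul_smul_comm, tr_smul] at h1
    have h2 : δ1 * tr f ≤ δ1 * (2 * tr e) := mul_le_mul_of_nonneg_left (by linarith) hδ1
    have h3 : 64 * δ1 * tr e ≤ δ * tr e := mul_le_mul_of_nonneg_right h64 hbpos.le
    have h4 : 0 ≤ δ1 * tr e := mul_nonneg hδ1 hbpos.le
    linarith
  have hDe2 : 16 * tr (S.D * S.Φ e) ≤ δ * tr e := by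
    have h0 := S.pos _ hle
    rw [map_sub, map_smul] at h0
    have h1 := tr_mul_mono (a := (((1 / 2 : ℝ) : ℝ) : ℂ) • S.Φ e) (b := S.Φ y) S.hD h0
    rw [mul_smul_comm, tr_smul] at h1
    have h2 : δ1 * tr f ≤ δ1 * (2 * tr e) := mul_le_mul_of_nonneg_left (by linarith) hδ1
    have h3 : 64 * δ1 * tr e ≤ δ * tr e := mul_le_mul_of_nonneg_right h64 hbpos.le
    linarith
  obtain ⟨f', hf', ht1, -, ht2, -, -⟩ := hI d k C η δ S lam e1 a1 ρ Q e hη.le (by linarith) hlam hQ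
    heP hbpos hρ0 ha10 (by nlinarith) hρ2.le hene hGa hcond hDe hDe2
  have hm := hmin f' hf'
  have hJf' : JJ lam Q f' = tr f' + tr (hh lam Q * f') := rfl
  have ht2' : tr (hh lam Q * f') ≤ tr ((1 - g) * e) + 2 * ρ * (1 / 4 * tr e) + ρ ^ 2 * tr e := by
    have h1 : √(tr ((1 - g) * e)) ≤ 1 / 4 * √(tr e) := by
      have h2 : tr ((1 - g) * e) ≤ (1 / 4) ^ 2 * tr e := by
        refine hGa.trans (mul_le_mul_of_nonneg_right ?_ hbpos.le)
        rw [ha1τ]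
        linarith
      calc √(tr ((1 - g) * e)) ≤ √((1 / 4) ^ 2 * tr e) := Real.sqrt_le_sqrt h2
        _ = 1 / 4 * √(tr e) := by
          rw [Real.sqrt_mul (sq_nonneg _), Real.sqrt_sq (by norm_num)]
    have h3 : (√(tr ((1 - g) * e)) + ρ * √(tr e)) ^ 2 =
        √(tr ((1 - g) * e)) ^ 2 + 2 * ρ * (√(tr ((1 - g) * e)) * √(tr e)) + ρ ^ 2 * √(tr e) ^ 2 := by
      ring
    have h4 : tr (hh lam Q * f') ≤ (√(tr ((1 - g) * e)) + ρ * √(tr e)) ^ 2 := ht2
    rw [h3, Real.sq_sqrt hG0, Real.sq_sqrt hbpos.le] at h4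
    have h5 : √(tr ((1 - g) * e)) * √(tr e) ≤ 1 / 4 * tr e := by
      have h6 := mul_le_mul_of_nonneg_right h1 (Real.sqrt_nonneg (tr e))
      rwa [mul_assoc, Real.mul_self_sqrt hbpos.le] at h6
    have h7 := mul_le_mul_of_nonneg_left h5 (by positivity : 0 ≤ 2 * ρ)
    linarith
  refine num2 hρ0 hρ he3 hfz hbpos hba hov hG hcase (J := JJ lam Q f') ?_ ?_
  · rw [hJf']
    linarith
  · rw [← hJf]
    exact hm

end Pool.Agent.W959.RC
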