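import Pool.Agent.W661.RC.Stm

set_option autoImplicit false

namespace Pool.Agent.W959.RC

open Matrix Pool.Agent.W661.RC
open scoped ComplexOrder

variable {d : ℕ}

lemma hs_nonneg (x : Mt d) : 0 ≤ hs x :=
  Finset.sum_nonneg fun _ _ => Finset.sum_nonneg fun _ _ => by positivity

lemma tr_add (x y : Mt d) : tr (x + y) = tr x + tr y := by
  unfold tr; rw [Matrix.trace_add, Complex.add_re]

lemma tr_sub (x y : Mt d) : tr (x - y) = tr x - tr y := by
  unfold tr; rw [Matrix.trace_sub, Complex.sub_re]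

lemma tr_smul (c : ℝ) (x : Mt d) : tr ((c : ℂ) • x) = c * tr x := by
  unfold tr; rw [Matrix.trace_smul, smul_eq_mul, Complex.re_ofReal_mul]

lemma tr_comm (x y : Mt d) : tr (x * y) = tr (y * x) := by
  unfold tr; rw [Matrix.trace_mul_comm]

lemma hs_eq (x : Mt d) : hs x = tr (xᴴ * x) := by
  unfold hs tr Matrix.trace
  rw [Finset.sum_comm, Complex.re_sum]
  refine Finset.sum_congr rfl fun j _ => ?_
  rw [Matrix.diag_apply, Matrix.mul_apply, Complex.re_sum]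
  refine Finset.sum_congr rfl fun i _ => ?_
  rw [Matrix.conjTranspose_apply, Complex.star_def, ← Complex.normSq_eq_conj_mul_self,
    Complex.ofReal_re, Complex.normSq_eq_norm_sq]

lemma hs_ct (x : Mt d) : hs xᴴ = hs x := by
  unfold hs
  rw [Finset.sum_comm]
  simp [Matrix.conjTranspose_apply]

lemma hs_eq' (x : Mt d) : hs x = tr (x * xᴴ) := by
  rw [← hs_ct, hs_eq, conjTranspose_conjTranspose]

lemma tr_nonneg {x : Mt d} (h : x.PosSemidef) : 0 ≤ tr x :=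
  (Complex.nonneg_iff.1 h.trace_nonneg).1

lemma hs_add3 (x y z : Mt d) : hs (x + y + z) ≤ 3 * (hs x + hs y + hs z) := by
  unfold hs
  rw [← Finset.sum_add_distrib, ← Finset.sum_add_distrib, Finset.mul_sum]
  refine Finset.sum_le_sum fun i _ => ?_
  rw [← Finset.sum_add_distrib, ← Finset.sum_add_distrib, Finset.mul_sum]
  refine Finset.sum_le_sum fun j _ => ?_
  have h1 : ‖(x + y + z) i j‖ ≤ ‖x i j‖ + ‖y i j‖ + ‖z i j‖ := by
    rw [Matrix.add_apply, Matrix.add_apply]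
    exact norm_add₃_le
  have h2 : 0 ≤ ‖(x + y + z) i j‖ := norm_nonneg _
  have h3 : ‖(x + y + z) i j‖ ^ 2 ≤ (‖x i j‖ + ‖y i j‖ + ‖z i j‖) ^ 2 :=
    pow_le_pow_left₀ h2 h1 2
  nlinarith [sq_nonneg (‖x i j‖ - ‖y i j‖), sq_nonneg (‖y i j‖ - ‖z i j‖),
    sq_nonneg (‖x i j‖ - ‖z i j‖)]

lemma hs_mul_right (x g : Mt d) (hg : gᴴ = g) (h : (1 - g * g).PosSemidef) :
    hs (x * g) ≤ hs x := by
  have h1 := tr_nonneg (h.mul_mul_conjTranspose_same x)
  rw [hs_eq' (x * g), hs_eq' x, conjTranspose_mul, hg]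
  have e : x * (1 - g * g) * xᴴ = x * xᴴ - x * g * (g * xᴴ) := by noncomm_ring
  rw [e, tr_sub] at h1
  linarith

lemma hs_mul_left (x g : Mt d) (hg : gᴴ = g) (h : (1 - g * g).PosSemidef) :
    hs (g * x) ≤ hs x := by
  rw [← hs_ct (g * x), ← hs_ct x, conjTranspose_mul, hg]
  exact hs_mul_right _ _ hg h

open scoped MatrixOrder in
lemma psd_fac {D : Mt d} (hD : D.PosSemidef) : ∃ B : Mt d, D = Bᴴ * B := by
  obtain ⟨B, hB⟩ := CStarAlgebra.nonneg_iff_eq_star_mul_self.mp hD.nonneg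
  exact ⟨B, hB⟩

lemma tr_mul_nonneg {D a : Mt d} (hD : D.PosSemidef) (ha : a.PosSemidef) : 0 ≤ tr (D * a) := by
  obtain ⟨B, rfl⟩ := psd_fac hD
  have := tr_nonneg (ha.mul_mul_conjTranspose_same B)
  rw [mul_assoc, tr_comm]
  exact this

lemma tr_mul_mono {D a b : Mt d} (hD : D.PosSemidef) (hab : Le a b) : tr (D * a) ≤ tr (D * b) := by
  have h := tr_mul_nonneg hD hab
  rw [mul_sub, tr_sub] at h
  linarith

lemma pr_psd {p : Mt d} (h : IsPr p) : p.PosSemidef := by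
  have e : p = pᴴ * p := by rw [h.1, h.2]
  rw [e]
  exact posSemidef_conjTranspose_mul_self p

lemma pr_one_sub {p : Mt d} (h : IsPr p) : (1 - p).PosSemidef := by
  have e : 1 - p = (1 - p)ᴴ * (1 - p) := by
    rw [conjTranspose_sub, conjTranspose_one, h.1]
    have h2 := h.2
    have : (1 - p) * (1 - p) = 1 - p - p + p * p := by noncomm_ring
    rw [this, h2]
    abel
  rw [e]
  exact posSemidef_conjTranspose_mul_self _

lemma pr_hs {p : Mt d} (h : IsPr p) : hs p = tr p := by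
  rw [hs_eq, h.1, h.2]

section Resolvent

variable {lam : ℝ} {Q : Mt d}

lemma smul_psd {c : ℝ} (hc : 0 ≤ c) {x : Mt d} (hx : x.PosSemidef) : ((c : ℂ) • x).PosSemidef :=
  hx.smul (by exact_mod_cast hc)

lemma X_pos (hl : 0 ≤ lam) (hQ : Q.PosSemidef) : (1 + (lam : ℂ) • Q).PosDef :=
  PosDef.one.add_posSemidef (smul_psd hl hQ)

lemma X_mul_g (hl : 0 ≤ lam) (hQ : Q.PosSemidef) : (1 + (lam : ℂ) • Q) * gg lam Q = 1 :=
  Matrix.mul_nonsing_inv _ ((Matrix.isUnit_iff_isUnit_det _).1 (X_pos hl hQ).isUnit)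

lemma g_mul_X (hl : 0 ≤ lam) (hQ : Q.PosSemidef) : gg lam Q * (1 + (lam : ℂ) • Q) = 1 :=
  Matrix.nonsing_inv_mul _ ((Matrix.isUnit_iff_isUnit_det _).1 (X_pos hl hQ).isUnit)

lemma g_herm (hl : 0 ≤ lam) (hQ : Q.PosSemidef) : (gg lam Q)ᴴ = gg lam Q :=
  (X_pos hl hQ).isHermitian.inv

lemma g_psd (hl : 0 ≤ lam) (hQ : Q.PosSemidef) : (gg lam Q).PosSemidef :=
  (X_pos hl hQ).inv.posSemidef

lemma h_eq (hl : 0 ≤ lam) (hQ : Q.PosSemidef) :
    1 - gg lam Q = gg lam Q * ((lam : ℂ) • Q) := by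
  have h := g_mul_X hl hQ
  rw [mul_add, mul_one] at h
  rw [← h]
  abel

lemma gh_eq (hl : 0 ≤ lam) (hQ : Q.PosSemidef) :
    gg lam Q - gg lam Q * gg lam Q = gg lam Q * ((lam : ℂ) • Q) * gg lam Q := by
  rw [← h_eq hl hQ]
  noncomm_ring

lemma h_psd (hl : 0 ≤ lam) (hQ : Q.PosSemidef) : (1 - gg lam Q).PosSemidef := by
  have e : 1 - gg lam Q = gg lam Q * ((lam : ℂ) • Q + ((lam : ℂ) • Q) * ((lam : ℂ) • Q)) *
      (gg lam Q)ᴴ := by
    rw [g_herm hl hQ, h_eq hl hQ]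
    have h := X_mul_g hl hQ
    have : gg lam Q * ((lam : ℂ) • Q + ((lam : ℂ) • Q) * ((lam : ℂ) • Q)) * gg lam Q =
        gg lam Q * ((lam : ℂ) • Q) * ((1 + (lam : ℂ) • Q) * gg lam Q) := by noncomm_ring
    rw [this, h, mul_one]
  rw [e]
  refine PosSemidef.mul_mul_conjTranspose_same ?_ _
  refine (smul_psd hl hQ).add ?_
  have hq := smul_psd hl hQ
  have : ((lam : ℂ) • Q) * ((lam : ℂ) • Q) = ((lam : ℂ) • Q)ᴴ * ((lam : ℂ) • Q) := by
    rw [hq.isHermitian.eq]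
  rw [this]
  exact posSemidef_conjTranspose_mul_self _

lemma gmg_psd (hl : 0 ≤ lam) (hQ : Q.PosSemidef) :
    (gg lam Q - gg lam Q * gg lam Q).PosSemidef := by
  rw [gh_eq hl hQ]
  have := (smul_psd hl hQ).mul_mul_conjTranspose_same (gg lam Q)
  rwa [g_herm hl hQ] at this

lemma gg_psd (hl : 0 ≤ lam) (hQ : Q.PosSemidef) :
    (1 - gg lam Q * gg lam Q).PosSemidef := by
  have := (h_psd hl hQ).add (gmg_psd hl hQ)
  have e : 1 - gg lam Q + (gg lam Q - gg lam Q * gg lam Q) = 1 - gg lam Q * gg lam Q := by abel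
  rwa [e] at this

end Resolvent

end Pool.Agent.W959.RC
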